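import Mathlib

/-!
# Light rays in a region with mirror boundary, in any dimension

Public definitions for project FO (focusing after `k` reflections).
-/

open Set Metric Filter Topology
open scoped RealInnerProductSpace

namespace Pool.Agent.Y294.FO

variable {E : Type*} [NormedAddCommGroup E] [InnerProductSpace ℝ E]

/-- Specular reflection of the direction `v` at a wall with unit normal `n`. -/
noncomputable def refl (n v : E) : E := v - (2 * ⟪n, v⟫) • n

/-- `Ω` is a bounded region whose boundary is of class `C^{1,1}`, expressed by balls: `ν` is the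
outward unit normal, and at every boundary point `p` the ball of radius `r` touching at `p` from
inside lies in `Ω` and the ball of radius `r` touching at `p` from outside misses `Ω`. -/
structure Region (Ω : Set E) (ν : E → E) (r : ℝ) : Prop where
  isOpen : IsOpen Ω
  isConnected : IsConnected Ω
  isBounded : Bornology.IsBounded Ω
  r_pos : 0 < r
  unit : ∀ p ∈ frontier Ω, ‖ν p‖ = 1
  inner : ∀ p ∈ frontier Ω, ball (p - r • ν p) r ⊆ Ω
  outer : ∀ p ∈ frontier Ω, Disjoint (ball (p + r • ν p) r) Ω

/-- A light path in `Ω` from `x` to `y` with exactly `k` reflections: the vertices are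
`P 0 = x`, the points of reflection `P 1, …, P k` on the boundary and `P (k + 1) = y`; the `i`-th
leg leaves `P i` in the unit direction `v i`, has length `τ i` and runs inside `Ω`; at every
`P (i + 1)` with `i < k` the direction is reflected in the wall. -/
structure LightPath (Ω : Set E) (ν : E → E) (k : ℕ) (x y : E) (P v : ℕ → E) (τ : ℕ → ℝ) :
    Prop where
  start : P 0 = x
  finish : P (k + 1) = y
  bdry : ∀ i, i < k → P (i + 1) ∈ frontier Ω
  pos : ∀ i, i ≤ k → 0 < τ i
  unit : ∀ i, i ≤ k → ‖v i‖ = 1
  step : ∀ i, i ≤ k → P (i + 1) = P i + τ i • v i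
  inside : ∀ i, i ≤ k → openSegment ℝ (P i) (P (i + 1)) ⊆ Ω
  law : ∀ i, i < k → v (i + 1) = refl (ν (P (i + 1))) (v i)

end Pool.Agent.Y294.FO
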