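import Mathlib
import Pool.Agent.Y294.FO.Defs

open Set Metric Filter Topology
open scoped RealInnerProductSpace

namespace Pool.Agent.Y294.FO

variable (E : Type*) [NormedAddCommGroup E] [InnerProductSpace ℝ E]

/-- EXIT: local Lipschitz dependence of the exit distance at a transversal exit. -/
def S_EXIT : Prop :=
  ∀ (Ω : Set E) (ν : E → E) (r : ℝ), Region Ω ν r →
  ∀ (p0 v0 : E) (τ0 : ℝ), 0 < τ0 → ‖v0‖ = 1 → p0 + τ0 • v0 ∈ frontier Ω →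
    openSegment ℝ p0 (p0 + τ0 • v0) ⊆ Ω → 0 < ⟪ν (p0 + τ0 • v0), v0⟫ →
    (p0 ∈ Ω ∨ (p0 ∈ frontier Ω ∧ ⟪ν p0, v0⟫ < 0)) →
    ∃ C δ : ℝ, 0 < C ∧ 0 < δ ∧ ∀ (p v : E) (τ : ℝ), 0 < τ → ‖v‖ = 1 →
      p + τ • v ∈ frontier Ω → openSegment ℝ p (p + τ • v) ⊆ Ω →
      (p0 ∈ Ω ∨ p ∈ frontier Ω) → ‖p - p0‖ < δ → ‖v - v0‖ < δ →
      |τ - τ0| ≤ C * (‖p - p0‖ + ‖v - v0‖)

/-- LEN: the lengths of two light paths with the same ends differ by at most a constant times the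
squares of the distances of their vertices. -/
def S_LEN : Prop :=
  ∀ (Ω : Set E) (ν : E → E) (r : ℝ), Region Ω ν r → ∀ (k : ℕ) (x y : E)
    (P v : ℕ → E) (τ : ℕ → ℝ) (P' v' : ℕ → E) (τ' : ℕ → ℝ),
    LightPath Ω ν k x y P v τ → LightPath Ω ν k x y P' v' τ' →
    |(∑ i ∈ Finset.range (k + 1), τ' i) - ∑ i ∈ Finset.range (k + 1), τ i| ≤
      (1 / r) * ∑ i ∈ Finset.range k, ‖P' (i + 1) - P (i + 1)‖ ^ 2

/-- CONST: a function on the unit sphere whose local differences are quadratically small is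
constant. -/
def S_CONST : Prop :=
  1 < Module.finrank ℝ E → ∀ L : E → ℝ,
    (∀ u0 : E, ‖u0‖ = 1 → ∃ C δ : ℝ, 0 < C ∧ 0 < δ ∧ ∀ u : E, ‖u‖ = 1 → ‖u - u0‖ < δ →
      |L u - L u0| ≤ C * ‖u - u0‖ ^ 2) →
    ∀ u u' : E, ‖u‖ = 1 → ‖u'‖ = 1 → L u = L u'

/-- SURJ: a continuous injective map of the unit sphere to itself is surjective. -/
def S_SURJ : Prop :=
  1 < Module.finrank ℝ E → ∀ w : E → E, ContinuousOn w (sphere (0 : E) 1) →
    MapsTo w (sphere (0 : E) 1) (sphere (0 : E) 1) → InjOn w (sphere (0 : E) 1) →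
    ∀ u : E, ‖u‖ = 1 → ∃ u', ‖u'‖ = 1 ∧ w u' = u

/-- STAR: a region with a continuous first hit function from `x` is star-shaped about `x`. -/
def S_STAR : Prop :=
  ∀ (Ω : Set E), IsOpen Ω → IsConnected Ω → ∀ x ∈ Ω, ∀ τ : E → ℝ,
    (∀ u : E, ‖u‖ = 1 → 0 < τ u ∧ x + τ u • u ∈ frontier Ω ∧
      openSegment ℝ x (x + τ u • u) ⊆ Ω) →
    ContinuousOn τ (sphere (0 : E) 1) →
    ∀ y ∈ Ω, y ≠ x → ‖y - x‖ < τ (‖y - x‖⁻¹ • (y - x))

/-- CONV: in a convex region no ray grazes the boundary. -/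
def S_CONV : Prop :=
  ∀ (Ω : Set E) (ν : E → E) (r : ℝ), Region Ω ν r → Convex ℝ Ω → ∀ (p v : E) (τ : ℝ),
    0 < τ → p + τ • v ∈ frontier Ω → openSegment ℝ p (p + τ • v) ⊆ Ω →
    0 < ⟪ν (p + τ • v), v⟫

/-- The outward normal of the ellipsoid with foci `x` and `y` (up to normalisation the gradient
of the sum of the distances). -/
noncomputable def ellNormal (x y q : E) : E :=
  ‖(‖q - x‖⁻¹ • (q - x) + ‖q - y‖⁻¹ • (q - y))‖⁻¹ •
    (‖q - x‖⁻¹ • (q - x) + ‖q - y‖⁻¹ • (q - y))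

/-- ELL: ellipsoids are regions of class `C^{1,1}`. -/
def S_ELL : Prop :=
  ∀ x y : E, ∀ l : ℝ, ‖x - y‖ < l → ∃ r : ℝ,
    Region {z : E | ‖z - x‖ + ‖z - y‖ < l} (ellNormal E x y) r ∧
    Convex ℝ {z : E | ‖z - x‖ + ‖z - y‖ < l}

/-- ODD: an ellipsoid focuses one focus onto the other after every odd number of reflections. -/
def S_ODD : Prop :=
  ∀ x y : E, ∀ l : ℝ, ‖x - y‖ < l → ∀ k : ℕ, Odd k → ∀ u : E, ‖u‖ = 1 →
    ∃ (P v : ℕ → E) (τ : ℕ → ℝ), v 0 = u ∧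
      LightPath {z : E | ‖z - x‖ + ‖z - y‖ < l} (ellNormal E x y) k x y P v τ

end Pool.Agent.Y294.FO
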