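import Mathlib
import Pool.Agent.Y294.FO.Stm

open Set Metric Filter Topology
open scoped RealInnerProductSpace

namespace Pool.Agent.Y294.FO

variable {E : Type*} [NormedAddCommGroup E] [InnerProductSpace ℝ E]

/-! ### The reflection -/

theorem refl_neg (n v : E) : refl n (-v) = -refl n v := by
  unfold refl
  rw [inner_neg_right]
  module

theorem inner_refl {n : E} (hn : ‖n‖ = 1) (v : E) : ⟪n, refl n v⟫ = -⟪n, v⟫ := by
  unfold refl
  rw [inner_sub_right, inner_smul_right, real_inner_self_eq_norm_sq, hn]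
  ring

theorem refl_refl {n : E} (hn : ‖n‖ = 1) (v : E) : refl n (refl n v) = v := by
  have h := inner_refl hn v
  unfold refl at h ⊢
  rw [h]
  module

/-! ### Regions -/

theorem Region.not_mem {Ω : Set E} {ν : E → E} {r : ℝ} (h : Region Ω ν r) {q : E}
    (hq : q ∈ frontier Ω) : q ∉ Ω := by
  rw [h.isOpen.frontier_eq] at hq
  exact hq.2

theorem Region.inner_far {Ω : Set E} {ν : E → E} {r : ℝ} (h : Region Ω ν r) {p q : E}
    (hp : p ∈ frontier Ω) (hq : q ∈ frontier Ω) : r ≤ ‖q - p + r • ν p‖ := by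
  by_contra hlt
  push Not at hlt
  apply h.not_mem hq
  apply h.inner p hp
  rw [mem_ball, dist_eq_norm]
  have e : q - (p - r • ν p) = q - p + r • ν p := by module
  rw [e]
  exact hlt

theorem Region.outer_far {Ω : Set E} {ν : E → E} {r : ℝ} (h : Region Ω ν r) {p q : E}
    (hp : p ∈ frontier Ω) (hq : q ∈ closure Ω) : r ≤ ‖q - p - r • ν p‖ := by
  by_contra hlt
  push Not at hlt
  have hb : q ∈ ball (p + r • ν p) r := by
    rw [mem_ball, dist_eq_norm]
    have e : q - (p + r • ν p) = q - p - r • ν p := by module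
    rw [e]
    exact hlt
  obtain ⟨z, hz1, hz2⟩ := mem_closure_iff.1 hq _ isOpen_ball hb
  exact Set.disjoint_left.1 (h.outer p hp) hz1 hz2

/-- The unit normal is Lipschitz. -/
theorem Region.nu_lip {Ω : Set E} {ν : E → E} {r : ℝ} (h : Region Ω ν r) {p q : E}
    (hp : p ∈ frontier Ω) (hq : q ∈ frontier Ω) : ‖ν p - ν q‖ ≤ ‖p - q‖ / r := by
  have hr := h.r_pos
  -- the inner ball at `p` and the outer ball at `q` are disjoint
  have key : ∀ p q : E, p ∈ frontier Ω → q ∈ frontier Ω →
      2 * r ≤ ‖p - q - r • (ν p + ν q)‖ := by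
    intro p q hp hq
    by_contra hlt
    push Not at hlt
    have hd : Disjoint (ball (p - r • ν p) r) (ball (q + r • ν q) r) :=
      Set.disjoint_of_subset_left (h.inner p hp) (h.outer q hq).symm
    have hm1 : (1 / 2 : ℝ) • ((p - r • ν p) + (q + r • ν q)) ∈ ball (p - r • ν p) r := by
      rw [mem_ball, dist_eq_norm]
      have : (1 / 2 : ℝ) • ((p - r • ν p) + (q + r • ν q)) - (p - r • ν p) =
          (-(1 / 2) : ℝ) • (p - q - r • (ν p + ν q)) := by module
      rw [this, norm_smul, show ‖(-(1 / 2) : ℝ)‖ = 1 / 2 by norm_num]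
      linarith
    have hm2 : (1 / 2 : ℝ) • ((p - r • ν p) + (q + r • ν q)) ∈ ball (q + r • ν q) r := by
      rw [mem_ball, dist_eq_norm]
      have : (1 / 2 : ℝ) • ((p - r • ν p) + (q + r • ν q)) - (q + r • ν q) =
          (1 / 2 : ℝ) • (p - q - r • (ν p + ν q)) := by module
      rw [this, norm_smul, show ‖(1 / 2 : ℝ)‖ = 1 / 2 by norm_num]
      linarith
    exact Set.disjoint_left.1 hd hm1 hm2
  have h1 := key p q hp hq
  have h2 := key q p hq hp
  have h1' : (2 * r) ^ 2 ≤ ‖p - q - r • (ν p + ν q)‖ ^ 2 := by gcongr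
  have h2' : (2 * r) ^ 2 ≤ ‖q - p - r • (ν q + ν p)‖ ^ 2 := by gcongr
  have e2 : q - p - r • (ν q + ν p) = -((p - q) + r • (ν p + ν q)) := by module
  rw [e2, norm_neg, norm_add_sq_real] at h2'
  rw [norm_sub_sq_real] at h1'
  rw [norm_smul, Real.norm_eq_abs, abs_of_pos hr] at h1' h2'
  have h3 := norm_add_sq_real (ν p) (ν q)
  have h4 := norm_sub_sq_real (ν p) (ν q)
  rw [h.unit p hp, h.unit q hq] at h3 h4
  have h5 : (r * ‖ν p - ν q‖) ^ 2 ≤ ‖p - q‖ ^ 2 := by nlinarith
  have h6 : r * ‖ν p - ν q‖ ≤ ‖p - q‖ := by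
    exact le_of_sq_le_sq h5 (norm_nonneg _) |> fun h => h
  rw [le_div_iff₀ hr]
  linarith

/-- Light rays hit the wall from inside. -/
theorem Region.inner_nonneg {Ω : Set E} {ν : E → E} {r : ℝ} (h : Region Ω ν r) {p v : E} {t : ℝ}
    (ht : 0 < t) (hq : p + t • v ∈ frontier Ω) (hs : openSegment ℝ p (p + t • v) ⊆ Ω) :
    0 ≤ ⟪ν (p + t • v), v⟫ := by
  have hr := h.r_pos
  set q := p + t • v with hqdef
  by_contra hneg
  push Not at hneg
  -- points `q - s v` are in the outer ball for small `s > 0`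
  have hlim : Tendsto (fun s : ℝ => s * ‖v‖ ^ 2 + 2 * r * ⟪ν q, v⟫) (𝓝[>] 0)
      (𝓝 (0 * ‖v‖ ^ 2 + 2 * r * ⟪ν q, v⟫)) := by
    apply tendsto_nhdsWithin_of_tendsto_nhds
    exact Continuous.tendsto (by fun_prop) 0
  have hneg2 : 0 * ‖v‖ ^ 2 + 2 * r * ⟪ν q, v⟫ < 0 := by nlinarith
  have hev := hlim.eventually_lt_const hneg2
  have hev2 : ∀ᶠ s : ℝ in 𝓝[>] 0, s < t := by
    apply mem_nhdsWithin_of_mem_nhds
    exact Iio_mem_nhds ht
  obtain ⟨s, hs1, hs2, hs3⟩ := (hev.and (hev2.and self_mem_nhdsWithin)).exists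
  have hs3' : 0 < s := hs3
  have hmem : q - s • v ∈ Ω := by
    apply hs
    rw [openSegment_eq_image']
    refine ⟨1 - s / t, ⟨?_, ?_⟩, ?_⟩
    · rw [sub_pos, div_lt_one ht]; exact hs2
    · have : 0 < s / t := by positivity
      linarith
    · simp only [hqdef, add_sub_cancel_left, smul_smul]
      have : (1 - s / t) * t = t - s := by field_simp
      rw [this]
      module
  have hout := h.outer_far hq (subset_closure hmem)
  have h1 : ‖q - s • v - q - r • ν q‖ ^ 2 < r ^ 2 := by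
    have : q - s • v - q - r • ν q = -(s • v + r • ν q) := by module
    rw [this, norm_neg, norm_add_sq_real, norm_smul, norm_smul, h.unit q hq,
      real_inner_smul_left, real_inner_smul_right, real_inner_comm]
    simp only [Real.norm_eq_abs, mul_one, mul_pow, sq_abs]
    nlinarith
  have h2 : r ^ 2 ≤ ‖q - s • v - q - r • ν q‖ ^ 2 := by gcongr
  linarith

/-! ### Light paths -/

/-- A light path without grazing reflections. -/
def Trans (ν : E → E) (k : ℕ) (P v : ℕ → E) : Prop := ∀ i, i < k → 0 < ⟪ν (P (i + 1)), v i⟫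

theorem LightPath.reverse {Ω : Set E} {ν : E → E} {r : ℝ} (h : Region Ω ν r) {k : ℕ} {x y : E}
    {P v : ℕ → E} {τ : ℕ → ℝ} (hP : LightPath Ω ν k x y P v τ) :
    LightPath Ω ν k y x (fun i => P (k + 1 - i)) (fun i => -v (k - i)) (fun i => τ (k - i)) := by
  refine ⟨?_, ?_, ?_, ?_, ?_, ?_, ?_, ?_⟩
  · simpa using hP.finish
  · simpa using hP.start
  · intro i hi
    have e : k + 1 - (i + 1) = (k - i - 1) + 1 := by omega
    simp only [e]
    exact hP.bdry _ (by omega)
  · intro i hi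
    exact hP.pos _ (by omega)
  · intro i hi
    rw [norm_neg]
    exact hP.unit _ (by omega)
  · intro i hi
    have e1 : k + 1 - (i + 1) = k - i := by omega
    have e2 : k + 1 - i = (k - i) + 1 := by omega
    simp only [e1, e2]
    rw [hP.step (k - i) (by omega)]
    module
  · intro i hi
    have e1 : k + 1 - (i + 1) = k - i := by omega
    have e2 : k + 1 - i = (k - i) + 1 := by omega
    simp only [e1, e2]
    rw [openSegment_symm]
    exact hP.inside (k - i) (by omega)
  · intro i hi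
    obtain ⟨j, hj⟩ : ∃ j, k - i = j + 1 := ⟨k - i - 1, by omega⟩
    have e1 : k + 1 - (i + 1) = j + 1 := by omega
    have e2 : k - (i + 1) = j := by omega
    simp only [e1, e2, hj]
    rw [hP.law j (by omega), refl_neg, refl_refl]
    exact h.unit _ (hP.bdry j (by omega))

theorem Trans.reverse {Ω : Set E} {ν : E → E} {r : ℝ} (h : Region Ω ν r) {k : ℕ} {x y : E}
    {P v : ℕ → E} {τ : ℕ → ℝ} (hP : LightPath Ω ν k x y P v τ) (hT : Trans ν k P v) :
    Trans ν k (fun i => P (k + 1 - i)) (fun i => -v (k - i)) := by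
  intro i hi
  obtain ⟨j, hj⟩ : ∃ j, k - i = j + 1 := ⟨k - i - 1, by omega⟩
  have e1 : k + 1 - (i + 1) = j + 1 := by omega
  simp only [e1, hj]
  rw [inner_neg_right, hP.law j (by omega), inner_refl (h.unit _ (hP.bdry j (by omega))), neg_neg]
  exact hT j (by omega)

/-- Uniqueness of the exit point. -/
theorem exit_unique {Ω : Set E} {ν : E → E} {r : ℝ} (h : Region Ω ν r) {p v : E} {s t : ℝ}
    (hs : 0 < s) (ht : 0 < t) (hs1 : p + s • v ∈ frontier Ω) (ht1 : p + t • v ∈ frontier Ω)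
    (hs2 : openSegment ℝ p (p + s • v) ⊆ Ω) (ht2 : openSegment ℝ p (p + t • v) ⊆ Ω) : s = t := by
  have key : ∀ s t : ℝ, 0 < s → p + s • v ∈ frontier Ω →
      openSegment ℝ p (p + t • v) ⊆ Ω → ¬ s < t := by
    intro s t hs hs1 ht2 hst
    apply h.not_mem hs1
    apply ht2
    rw [openSegment_eq_image']
    refine ⟨s / t, ⟨by have := hs.trans hst; positivity, by rw [div_lt_one (hs.trans hst)]; exact hst⟩, ?_⟩
    simp only [add_sub_cancel_left, smul_smul]
    rw [div_mul_cancel₀ _ (hs.trans hst).ne']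
  rcases lt_trichotomy s t with h1 | h1 | h1
  · exact absurd h1 (key s t hs hs1 ht2)
  · exact h1
  · exact absurd h1 (key t s ht ht1 hs2)

/-- A light path is determined by its start and its first direction. -/
theorem LightPath.unique {Ω : Set E} {ν : E → E} {r : ℝ} (h : Region Ω ν r) {k : ℕ} {x y y' : E}
    {P v : ℕ → E} {τ : ℕ → ℝ} {P' v' : ℕ → E} {τ' : ℕ → ℝ} (hP : LightPath Ω ν k x y P v τ)
    (hP' : LightPath Ω ν k x y' P' v' τ') (hv : v 0 = v' 0) :
    ∀ i, i ≤ k → P i = P' i ∧ v i = v' i ∧ ∀ j, j < i → τ j = τ' j := by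
  intro i
  induction i with
  | zero =>
    intro _
    exact ⟨hP.start.trans hP'.start.symm, hv, fun j hj => absurd hj (Nat.not_lt_zero j)⟩
  | succ i ih =>
    intro hi
    obtain ⟨h1, h2, h3⟩ := ih (by omega)
    have e1 := hP.step i (by omega)
    have e2 := hP'.step i (by omega)
    have b1 := hP.bdry i (by omega)
    have b2 := hP'.bdry i (by omega)
    have s1 := hP.inside i (by omega)
    have s2 := hP'.inside i (by omega)
    rw [e1] at b1 s1
    rw [e2, ← h1, ← h2] at b2
    rw [e2, ← h1, ← h2] at s2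
    have ht : τ i = τ' i := exit_unique h (hP.pos i (by omega)) (hP'.pos i (by omega)) b1 b2 s1 s2
    have hPi : P (i + 1) = P' (i + 1) := by rw [e1, e2, h1, h2, ht]
    refine ⟨hPi, ?_, ?_⟩
    · rw [hP.law i (by omega), hP'.law i (by omega), hPi, h2]
    · intro j hj
      rcases Nat.lt_succ_iff_lt_or_eq.1 hj with hj | hj
      · exact h3 j hj
      · rw [hj]; exact ht

end Pool.Agent.Y294.FO
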