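import Mathlib
import Pool.Agent.Y294.FO.Core

open Set Metric Filter Topology Asymptotics
open scoped RealInnerProductSpace

set_option linter.unusedSectionVars false

namespace Pool.Agent.Y294.FO

variable {E : Type*} [NormedAddCommGroup E] [InnerProductSpace ℝ E]
variable {F : Type*} [NormedAddCommGroup F] [InnerProductSpace ℝ F]

/-- Local Lipschitz estimate at the point `u0` of the unit sphere. -/
def LL (f : E → F) (u0 : E) : Prop :=
  (fun u => f u - f u0) =O[𝓝[sphere (0 : E) 1] u0] (fun u => ‖u - u0‖)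

theorem tendsto_norm_sub (u0 : E) :
    Tendsto (fun u : E => ‖u - u0‖) (𝓝[sphere (0 : E) 1] u0) (𝓝 0) := by
  apply tendsto_nhdsWithin_of_tendsto_nhds
  have : Continuous (fun u : E => ‖u - u0‖) := by fun_prop
  simpa using this.tendsto u0

theorem LL.tendsto {f : E → F} {u0 : E} (h : LL f u0) :
    Tendsto f (𝓝[sphere (0 : E) 1] u0) (𝓝 (f u0)) := by
  have h1 : Tendsto (fun u => f u - f u0) (𝓝[sphere (0 : E) 1] u0) (𝓝 0) :=
    IsBigO.trans_tendsto h (tendsto_norm_sub u0)
  have h2 := h1.add_const (f u0)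
  simpa using h2

theorem LL.bdd {f : E → F} {u0 : E} (h : LL f u0) :
    f =O[𝓝[sphere (0 : E) 1] u0] (fun _ => (1 : ℝ)) := h.tendsto.isBigO_one ℝ

theorem LL.add {f g : E → F} {u0 : E} (hf : LL f u0) (hg : LL g u0) :
    LL (fun u => f u + g u) u0 := by
  have h := IsBigO.add hf hg
  refine h.congr_left fun u => ?_
  module

theorem LL.sub {f g : E → F} {u0 : E} (hf : LL f u0) (hg : LL g u0) :
    LL (fun u => f u - g u) u0 := by
  have h := IsBigO.sub hf hg
  refine h.congr_left fun u => ?_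
  module

theorem LL.neg {f : E → F} {u0 : E} (hf : LL f u0) : LL (fun u => -f u) u0 := by
  have h := IsBigO.neg_left hf
  refine h.congr_left fun u => ?_
  module

theorem LL.smul {s : E → ℝ} {f : E → F} {u0 : E} (hs : LL s u0) (hf : LL f u0) :
    LL (fun u => s u • f u) u0 := by
  have h1 : (fun u => (s u - s u0) • f u) =O[𝓝[sphere (0 : E) 1] u0]
      (fun u => ‖u - u0‖ • (1 : ℝ)) := IsBigO.smul hs hf.bdd
  have h2 : (fun u => s u0 • (f u - f u0)) =O[𝓝[sphere (0 : E) 1] u0]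
      (fun u => ‖u - u0‖) := IsBigO.const_smul_left hf (s u0)
  have h1' : (fun u => (s u - s u0) • f u) =O[𝓝[sphere (0 : E) 1] u0]
      (fun u => ‖u - u0‖) := h1.congr_right fun u => by simp
  refine (h1'.add h2).congr_left fun u => ?_
  module

theorem LL.inner {f g : E → F} {u0 : E} (hf : LL f u0) (hg : LL g u0) :
    LL (fun u => ⟪f u, g u⟫) u0 := by
  have h1 : (fun u => ⟪f u - f u0, g u⟫) =O[𝓝[sphere (0 : E) 1] u0]
      (fun u => ‖u - u0‖) := by
    have ha : (fun u => ⟪f u - f u0, g u⟫) =O[𝓝[sphere (0 : E) 1] u0]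
        (fun u => ‖f u - f u0‖ * ‖g u‖) :=
      IsBigO.of_bound 1 (Eventually.of_forall fun u => by
        simpa using abs_real_inner_le_norm (f u - f u0) (g u))
    refine ha.trans ?_
    have hb := IsBigO.mul (IsBigO.norm_left hf) (IsBigO.norm_left hg.bdd)
    exact hb.congr_right fun u => by simp
  have h2 : (fun u => ⟪f u0, g u - g u0⟫) =O[𝓝[sphere (0 : E) 1] u0]
      (fun u => ‖u - u0‖) := by
    have ha : (fun u => ⟪f u0, g u - g u0⟫) =O[𝓝[sphere (0 : E) 1] u0]
        (fun u => g u - g u0) :=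
      IsBigO.of_bound ‖f u0‖ (Eventually.of_forall fun u => by
        simpa using abs_real_inner_le_norm (f u0) (g u - g u0))
    exact ha.trans hg
  refine (h1.add h2).congr_left fun u => ?_
  rw [inner_sub_left, inner_sub_right]
  ring

theorem LL.congr {f g : E → F} {u0 : E} (hu0 : ‖u0‖ = 1) (hf : LL f u0)
    (h : ∀ u : E, ‖u‖ = 1 → g u = f u) : LL g u0 := by
  unfold LL at hf ⊢
  refine hf.congr' ?_ EventuallyEq.rfl
  filter_upwards [self_mem_nhdsWithin] with u hu
  rw [h u (by simpa using hu), h u0 hu0]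

theorem LL.const (c : F) (u0 : E) : LL (fun _ : E => c) u0 := by
  unfold LL
  simp only [sub_self]
  exact isBigO_zero _ _

theorem LL.id (u0 : E) : LL (fun u : E => u) u0 := by
  unfold LL
  exact IsBigO.of_bound 1 (Eventually.of_forall fun u => by simp)

/-- Extraction of the explicit form. -/
theorem exists_of_isBigO {f : E → ℝ} {g : E → ℝ} {u0 : E}
    (h : f =O[𝓝[sphere (0 : E) 1] u0] g) :
    ∃ C δ : ℝ, 0 < C ∧ 0 < δ ∧ ∀ u : E, ‖u‖ = 1 → ‖u - u0‖ < δ → |f u| ≤ C * |g u| := by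
  obtain ⟨C, hC, hb⟩ := h.exists_pos
  have hb' := hb.bound
  rw [Filter.Eventually, Metric.mem_nhdsWithin_iff] at hb'
  obtain ⟨δ, hδ, hsub⟩ := hb'
  refine ⟨C, δ, hC, hδ, fun u hu hu' => ?_⟩
  have := hsub ⟨by rw [mem_ball, dist_eq_norm]; exact hu', by simpa using hu⟩
  simpa using this

section family

variable {Ω : Set E} {ν : E → E} {r : ℝ} {k : ℕ} {x y : E}
variable {P v : E → ℕ → E} {τ : E → ℕ → ℝ}

theorem LL.normal (h : Region Ω ν r) {Q : E → E} {u0 : E} (hu0 : ‖u0‖ = 1)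
    (hQ : ∀ u : E, ‖u‖ = 1 → Q u ∈ frontier Ω) (hL : LL Q u0) : LL (fun u => ν (Q u)) u0 := by
  refine IsBigO.trans ?_ hL
  refine IsBigO.of_bound (1 / r) ?_
  filter_upwards [self_mem_nhdsWithin] with u hu
  have hu' : ‖u‖ = 1 := by simpa using hu
  have := h.nu_lip (hQ u hu') (hQ u0 hu0)
  calc ‖ν (Q u) - ν (Q u0)‖ ≤ ‖Q u - Q u0‖ / r := this
    _ = 1 / r * ‖Q u - Q u0‖ := by ring

/-- The whole path depends locally in a Lipschitz way on the first direction. -/
theorem fam_LL (hE : S_EXIT E) (h : Region Ω ν r) (hx : x ∈ Ω) {y : E → E}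
    (hv : ∀ u : E, ‖u‖ = 1 → v u 0 = u)
    (hP : ∀ u : E, ‖u‖ = 1 → LightPath Ω ν k x (y u) (P u) (v u) (τ u))
    (hT : ∀ u : E, ‖u‖ = 1 → Trans ν k (P u) (v u)) {u0 : E} (hu0 : ‖u0‖ = 1) :
    ∀ i, i ≤ k → LL (fun u => P u i) u0 ∧ LL (fun u => v u i) u0 ∧
      ∀ j, j < i → LL (fun u => τ u j) u0 := by
  intro i
  induction i with
  | zero =>
    intro _
    refine ⟨?_, ?_, fun j hj => absurd hj (Nat.not_lt_zero j)⟩
    · exact (LL.const x u0).congr hu0 fun u hu => (hP u hu).start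
    · exact (LL.id u0).congr hu0 fun u hu => hv u hu
  | succ i ih =>
    intro hi
    obtain ⟨h1, h2, h3⟩ := ih (by omega)
    have hi' : i < k := by omega
    -- the exit estimate
    have hstep0 := (hP u0 hu0).step i (by omega)
    have hb0 := (hP u0 hu0).bdry i hi'
    have hs0 := (hP u0 hu0).inside i (by omega)
    have ht0 := hT u0 hu0 i hi'
    rw [hstep0] at hb0 hs0 ht0
    have hcase : P u0 i ∈ Ω ∨ (P u0 i ∈ frontier Ω ∧ ⟪ν (P u0 i), v u0 i⟫ < 0) := by
      rcases Nat.eq_zero_or_pos i with h0 | h0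
      · left
        rw [h0, (hP u0 hu0).start]
        exact hx
      · right
        obtain ⟨j, rfl⟩ : ∃ j, i = j + 1 := ⟨i - 1, by omega⟩
        have hbj := (hP u0 hu0).bdry j (by omega)
        refine ⟨hbj, ?_⟩
        rw [(hP u0 hu0).law j (by omega), inner_refl (h.unit _ hbj)]
        have := hT u0 hu0 j (by omega)
        linarith
    obtain ⟨C, δ, hC, hδ, hex⟩ := hE Ω ν r h (P u0 i) (v u0 i) (τ u0 i)
      ((hP u0 hu0).pos i (by omega)) ((hP u0 hu0).unit i (by omega)) hb0 hs0 ht0 hcase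
    have htau : LL (fun u => τ u i) u0 := by
      have hsum : (fun u => ‖P u i - P u0 i‖ + ‖v u i - v u0 i‖) =O[𝓝[sphere (0 : E) 1] u0]
          (fun u => ‖u - u0‖) := IsBigO.add (IsBigO.norm_left h1) (IsBigO.norm_left h2)
      refine IsBigO.trans ?_ hsum
      refine IsBigO.of_bound C ?_
      have e1 : ∀ᶠ u in 𝓝[sphere (0 : E) 1] u0, ‖P u i - P u0 i‖ < δ := by
        have := h1.tendsto.sub_const (P u0 i)
        simp only [sub_self] at this
        exact this.norm.eventually_lt_const (by simpa using hδ)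
      have e2 : ∀ᶠ u in 𝓝[sphere (0 : E) 1] u0, ‖v u i - v u0 i‖ < δ := by
        have := h2.tendsto.sub_const (v u0 i)
        simp only [sub_self] at this
        exact this.norm.eventually_lt_const (by simpa using hδ)
      filter_upwards [e1, e2, self_mem_nhdsWithin] with u hu1 hu2 hu3
      have hu : ‖u‖ = 1 := by simpa using hu3
      have hstep := (hP u hu).step i (by omega)
      have hb := (hP u hu).bdry i hi'
      have hs := (hP u hu).inside i (by omega)
      rw [hstep] at hb hs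
      have hor : P u0 i ∈ Ω ∨ P u i ∈ frontier Ω := by
        rcases Nat.eq_zero_or_pos i with h0 | h0
        · left
          rw [h0, (hP u0 hu0).start]
          exact hx
        · right
          obtain ⟨j, rfl⟩ : ∃ j, i = j + 1 := ⟨i - 1, by omega⟩
          exact (hP u hu).bdry j (by omega)
      have := hex (P u i) (v u i) (τ u i) ((hP u hu).pos i (by omega))
        ((hP u hu).unit i (by omega)) hb hs hor hu1 hu2
      rw [Real.norm_eq_abs, Real.norm_eq_abs,
        abs_of_nonneg (add_nonneg (norm_nonneg _) (norm_nonneg _))]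
      exact this
    have hPi : LL (fun u => P u (i + 1)) u0 :=
      (h1.add (htau.smul h2)).congr hu0 fun u hu => (hP u hu).step i (by omega)
    refine ⟨hPi, ?_, ?_⟩
    · have hn : LL (fun u => ν (P u (i + 1))) u0 :=
        LL.normal h hu0 (fun u hu => (hP u hu).bdry i hi') hPi
      have h4 : LL (fun u => v u i - (2 * ⟪ν (P u (i + 1)), v u i⟫) • ν (P u (i + 1))) u0 := by
        refine h2.sub (LL.smul ?_ hn)
        exact LL.smul (LL.const (2 : ℝ) u0) (hn.inner h2)
      refine h4.congr hu0 fun u hu => ?_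
      exact (hP u hu).law i hi'
    · intro j hj
      rcases Nat.lt_succ_iff_lt_or_eq.1 hj with hj | hj
      · exact h3 j hj
      · rw [hj]; exact htau

/-- All paths of the family have the same length. -/
theorem fam_len (hE : S_EXIT E) (hL : S_LEN E) (hC : S_CONST E) (h2 : 1 < Module.finrank ℝ E)
    (h : Region Ω ν r) (hx : x ∈ Ω)
    (hv : ∀ u : E, ‖u‖ = 1 → v u 0 = u)
    (hP : ∀ u : E, ‖u‖ = 1 → LightPath Ω ν k x y (P u) (v u) (τ u))
    (hT : ∀ u : E, ‖u‖ = 1 → Trans ν k (P u) (v u)) {u u' : E} (hu : ‖u‖ = 1) (hu' : ‖u'‖ = 1) :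
    ∑ i ∈ Finset.range (k + 1), τ u i = ∑ i ∈ Finset.range (k + 1), τ u' i := by
  refine hC h2 (fun u => ∑ i ∈ Finset.range (k + 1), τ u i) ?_ u u' hu hu'
  intro u0 hu0
  have hfam := fam_LL hE h hx (y := fun _ => y) hv hP hT hu0
  have hbig : (fun u => (1 / r) * ∑ i ∈ Finset.range k, ‖P u (i + 1) - P u0 (i + 1)‖ ^ 2)
      =O[𝓝[sphere (0 : E) 1] u0] (fun u => ‖u - u0‖ ^ 2) := by
    have hterm : ∀ i ∈ Finset.range k, (fun u => ‖P u (i + 1) - P u0 (i + 1)‖ ^ 2)
        =O[𝓝[sphere (0 : E) 1] u0] (fun u => ‖u - u0‖ ^ 2) := by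
      intro i hi
      have hi' : i + 1 ≤ k := by have := Finset.mem_range.1 hi; omega
      have h5 : (fun u => ‖P u (i + 1) - P u0 (i + 1)‖) =O[𝓝[sphere (0 : E) 1] u0]
        (fun u => ‖u - u0‖) := IsBigO.norm_left (hfam (i + 1) hi').1
      exact h5.pow 2
    exact IsBigO.const_mul_left (IsBigO.fun_sum hterm) _
  obtain ⟨C, δ, hC0, hδ, hb⟩ := exists_of_isBigO hbig
  refine ⟨C, δ, hC0, hδ, fun u hu hu1 => ?_⟩
  have h3 := hL Ω ν r h k x y (P u0) (v u0) (τ u0) (P u) (v u) (τ u) (hP u0 hu0) (hP u hu)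
  have h4 := hb u hu hu1
  rw [abs_of_nonneg (sq_nonneg ‖u - u0‖)] at h4
  exact h3.trans ((le_abs_self _).trans h4)

end family

end Pool.Agent.Y294.FO
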