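import Mathlib
import Pool.Agent.Y294.FO.Fam

open Set Metric Filter Topology Asymptotics
open scoped RealInnerProductSpace

set_option linter.unusedSectionVars false

namespace Pool.Agent.Y294.FO

variable {E : Type*} [NormedAddCommGroup E] [InnerProductSpace ℝ E]

/-- No transversal focusing after an even number of reflections. -/
theorem even_core [FiniteDimensional ℝ E] (hE : S_EXIT E) (hL : S_LEN E) (hC : S_CONST E)
    (hS : S_SURJ E) (hSt : S_STAR E) (h2 : 1 < Module.finrank ℝ E)
    {Ω : Set E} {ν : E → E} {r : ℝ} (h : Region Ω ν r) {x y : E} (hx : x ∈ Ω) (hy : y ∈ Ω)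
    (hxy : x ≠ y) {k : ℕ} (hk : Even k)
    (hF : ∀ u : E, ‖u‖ = 1 → ∃ (P v : ℕ → E) (τ : ℕ → ℝ), v 0 = u ∧
      LightPath Ω ν k x y P v τ ∧ Trans ν k P v) : False := by
  choose! P v τ hv hP hT using hF
  set c : ℝ := ‖y - x‖ with hc
  have hc0 : 0 < c := norm_pos_iff.2 (sub_ne_zero.2 hxy.symm)
  set u0 : E := c⁻¹ • (y - x) with hu0def
  have hu0 : ‖u0‖ = 1 := by
    rw [hu0def, norm_smul, norm_inv, Real.norm_eq_abs, abs_of_pos hc0, ← hc,
      inv_mul_cancel₀ hc0.ne']
  have hyx : y = x + c • u0 := by
    rw [hu0def, smul_smul, mul_inv_cancel₀ hc0.ne', one_smul]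
    abel
  obtain ⟨m, hm⟩ := hk
  rcases Nat.eq_zero_or_pos k with hk0 | hkpos
  · -- `k = 0`: the ray in the opposite direction
    subst hk0
    have hn : ‖-u0‖ = 1 := by rw [norm_neg]; exact hu0
    have h1 := (hP (-u0) hn).step 0 le_rfl
    rw [(hP (-u0) hn).finish, (hP (-u0) hn).start, hv (-u0) hn, hyx] at h1
    have h3 : (c + τ (-u0) 0) • u0 = 0 := by
      have h4 : c • u0 = τ (-u0) 0 • (-u0) := add_left_cancel h1
      rw [add_smul, h4]
      module
    have hpos := (hP (-u0) hn).pos 0 le_rfl
    rcases smul_eq_zero.1 h3 with h5 | h5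
    · linarith
    · rw [h5, norm_zero] at hu0
      exact zero_ne_one hu0
  -- the map of directions
  have hfam := fun (u : E) (hu : ‖u‖ = 1) => fam_LL hE h hx (y := fun _ => y) hv hP hT hu
  have hlen := fun (u u' : E) (hu : ‖u‖ = 1) (hu' : ‖u'‖ = 1) =>
    fam_len hE hL hC h2 h hx hv hP hT hu hu'
  -- surjectivity
  obtain ⟨u1, hu1, hw1⟩ : ∃ u1 : E, ‖u1‖ = 1 ∧ -v u1 k = u0 := by
    refine hS h2 (fun u => -v u k) ?_ ?_ ?_ u0 hu0
    · intro u hu
      have hu' : ‖u‖ = 1 := by simpa using hu
      exact ((hfam u hu' k le_rfl).2.1).tendsto.neg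
    · intro u hu
      have hu' : ‖u‖ = 1 := by simpa using hu
      have := (hP u hu').unit k le_rfl
      simpa using this
    · intro u hu u' hu' huu
      have h3 : ‖u‖ = 1 := by simpa using hu
      have h4 : ‖u'‖ = 1 := by simpa using hu'
      have h5 := ((hP u h3).reverse h).unique h ((hP u' h4).reverse h)
        (by simpa using huu) k le_rfl
      have h6 := h5.2.1
      simp only [Nat.sub_self, neg_inj] at h6
      rw [hv u h3, hv u' h4] at h6
      exact h6
  -- star-shapedness: `y` is on the first leg of the path in direction `u0`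
  have hc1 : c < τ u0 0 := by
    have h3 := hSt Ω h.isOpen h.isConnected x hx (fun u => τ u 0) ?_ ?_ y hy hxy.symm
    · simpa [hu0def, hc] using h3
    · intro u hu
      have h4 := (hP u hu).step 0 (by omega)
      have h5 := (hP u hu).bdry 0 hkpos
      have h6 := (hP u hu).inside 0 (by omega)
      rw [h4] at h5 h6
      rw [(hP u hu).start, hv u hu] at h5 h6
      exact ⟨(hP u hu).pos 0 (by omega), h5, h6⟩
    · intro u hu
      have hu' : ‖u‖ = 1 := by simpa using hu
      exact ((hfam u hu' 1 (by omega)).2.2 0 (by omega)).tendsto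
  -- path `A` and its shift which starts at `y`
  have hA := hP u0 hu0
  have hA0 : v u0 0 = u0 := hv u0 hu0
  set Py : ℕ → E := fun i => if i = 0 then y else P u0 i with hPy
  set τy : ℕ → ℝ := fun i => if i = 0 then τ u0 0 - c else τ u0 i with hτy
  have hAy : LightPath Ω ν k y y Py (v u0) τy := by
    have hstep : ∀ i, i ≤ k → Py (i + 1) = Py i + τy i • v u0 i := by
      intro i hi
      rcases Nat.eq_zero_or_pos i with h0 | h0
      · subst h0
        simp only [hPy, hτy, Nat.zero_add, one_ne_zero, if_false, if_true]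
        have h3 := hA.step 0 hi
        rw [Nat.zero_add] at h3
        rw [h3, hA.start, hA0, hyx]
        module
      · simp only [hPy, hτy, Nat.succ_ne_zero, if_false, h0.ne']
        exact hA.step i hi
    refine ⟨by simp [hPy], ?_, ?_, ?_, ?_, hstep, ?_, ?_⟩
    · simp only [hPy, Nat.succ_ne_zero, if_false]
      exact hA.finish
    · intro i hi
      simp only [hPy, Nat.succ_ne_zero, if_false]
      exact hA.bdry i hi
    · intro i hi
      rcases Nat.eq_zero_or_pos i with h0 | h0
      · subst h0
        simp only [hτy, if_true]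
        linarith
      · simp only [hτy, h0.ne', if_false]
        exact hA.pos i hi
    · intro i hi
      exact hA.unit i hi
    · intro i hi
      rcases Nat.eq_zero_or_pos i with h0 | h0
      · subst h0
        have h3 := hA.inside 0 hi
        have h4 := hA.step 0 hi
        simp only [Nat.zero_add] at h3 h4
        simp only [hPy, Nat.zero_add, one_ne_zero, if_false, if_true]
        refine Subset.trans ?_ h3
        -- `y` is on the first leg
        rw [hA.start, hA0] at h4
        rw [hA.start]
        have hpos := hA.pos 0 hi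
        intro z hz
        rw [openSegment_eq_image'] at hz ⊢
        obtain ⟨s, ⟨hs0, hs1⟩, rfl⟩ := hz
        refine ⟨(c + s * (τ u0 0 - c)) / τ u0 0, ⟨?_, ?_⟩, ?_⟩
        · have : 0 < s * (τ u0 0 - c) := mul_pos hs0 (by linarith)
          positivity
        · rw [div_lt_one hpos]
          nlinarith
        · rw [h4, hyx]
          have e1 : x + τ u0 0 • u0 - x = τ u0 0 • u0 := by abel
          have e2 : x + τ u0 0 • u0 - (x + c • u0) = (τ u0 0 - c) • u0 := by module
          simp only [e1, e2, smul_smul]
          rw [div_mul_cancel₀ _ hpos.ne']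
          module
      · simp only [hPy, Nat.succ_ne_zero, if_false, h0.ne']
        exact hA.inside i hi
    · intro i hi
      simp only [hPy, Nat.succ_ne_zero, if_false]
      exact hA.law i hi
  -- path `B` arrives at `y` in direction `-u0`
  have hB := (hP u1 hu1).reverse h
  have hBlen := hlen u0 u1 hu0 hu1
  have huniq := hAy.unique h hB (by
    simp only [Nat.sub_zero]
    rw [hw1, hA0])
  -- the last legs
  obtain ⟨q1, q2, q3⟩ := huniq k le_rfl
  have hlastA := hA.step k le_rfl
  have hlastB := hB.step k le_rfl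
  have hlastBf := hB.finish
  simp only [Nat.sub_self] at hlastB hlastBf
  rw [hA.finish] at hlastA
  have hPyk : Py k = P u0 k := by simp [hPy, hkpos.ne']
  -- lengths
  have hsumA : ∑ i ∈ Finset.range (k + 1), τ u0 i =
      (∑ i ∈ Finset.range k, τy i) + c + τ u0 k := by
    rw [Finset.sum_range_succ]
    congr 1
    obtain ⟨j, hj⟩ : ∃ j, k = j + 1 := ⟨k - 1, by omega⟩
    rw [hj, Finset.sum_range_succ', Finset.sum_range_succ']
    simp only [hτy, Nat.succ_ne_zero, if_false, if_true]
    ring
  have hsumB : ∑ i ∈ Finset.range (k + 1), τ u1 i =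
      (∑ i ∈ Finset.range k, τ u1 (k - i)) + τ u1 0 := by
    have h3 := Finset.sum_range_reflect (fun i => τ u1 i) (k + 1)
    rw [← h3, Finset.sum_range_succ]
    simp only [Nat.add_sub_cancel, Nat.sub_self]
  have hsumeq : ∑ i ∈ Finset.range k, τy i = ∑ i ∈ Finset.range k, τ u1 (k - i) :=
    Finset.sum_congr rfl fun i hi => q3 i (Finset.mem_range.1 hi)
  have hτ : τ u1 0 = c + τ u0 k := by linarith
  -- the final direction of `A` is `-u0`
  have hfin : v u0 k = -u0 := by
    have h3 : x = P u0 k + (c + τ u0 k) • v u0 k := by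
      have e1 : P u1 0 = Py k + τ u1 0 • v u0 k := by
        rw [q1, q2]
        simp only [Nat.sub_self]
        exact hlastB
      rw [← hlastBf, e1, hPyk, hτ]
    have h5 : x = y + c • v u0 k := by
      calc x = P u0 k + (c + τ u0 k) • v u0 k := h3
        _ = (P u0 k + τ u0 k • v u0 k) + c • v u0 k := by module
        _ = y + c • v u0 k := by rw [← hlastA]
    have h6 : c • (v u0 k + u0) = 0 := by
      have h7 : x = x + c • u0 + c • v u0 k := by
        rw [← hyx]; exact h5
      have h8 : c • u0 + c • v u0 k = 0 := by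
        have : x + (c • u0 + c • v u0 k) = x := by rw [← add_assoc]; exact h7.symm
        simpa using this
      rw [smul_add, add_comm]; exact h8
    rcases smul_eq_zero.1 h6 with h7 | h7
    · exact absurd h7 hc0.ne'
    · exact eq_neg_of_add_eq_zero_left h7
  -- path `A` reversed is path `A`
  have hpal := hAy.unique h (hA.reverse h) (by
    simp only [Nat.sub_zero]
    rw [hfin, hA0, neg_neg])
  have hmk : m ≤ k := by omega
  obtain ⟨_, p2, _⟩ := hpal m hmk
  have e : k - m = m := by omega
  simp only [e] at p2
  have h0 : v u0 m = 0 := by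
    have : (2 : ℝ) • v u0 m = 0 := by
      rw [two_smul]
      nth_rewrite 2 [p2]
      simp
    simpa using this
  have h1 := hA.unit m hmk
  rw [h0, norm_zero] at h1
  exact zero_ne_one h1

end Pool.Agent.Y294.FO
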