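import Mathlib
import Pool.Agent.Y294.FO.Even

open Set Metric Filter Topology Asymptotics
open scoped RealInnerProductSpace

set_option linter.unusedSectionVars false

namespace Pool.Agent.Y294.FO

variable {E : Type*} [NormedAddCommGroup E] [InnerProductSpace ℝ E]

theorem norm_refl {n : E} (hn : ‖n‖ = 1) (v : E) : ‖refl n v‖ = ‖v‖ := by
  have e : ‖refl n v‖ ^ 2 = ‖v‖ ^ 2 := by
    unfold refl
    rw [norm_sub_sq_real, norm_smul, real_inner_smul_right, hn, real_inner_comm]
    simp only [Real.norm_eq_abs, mul_one, sq_abs]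
    ring
  exact (sq_eq_sq₀ (norm_nonneg _) (norm_nonneg _)).1 e

/-- In a convex region every ray which starts inside, or at the wall towards the inside, has an
exit point. -/
theorem exists_exit_convex {Ω : Set E} {ν : E → E} {r : ℝ} (h : Region Ω ν r) (hc : Convex ℝ Ω)
    {p v : E} (hv : ‖v‖ = 1) (hp : p ∈ Ω ∨ (p ∈ frontier Ω ∧ ⟪ν p, v⟫ < 0)) :
    ∃ t : ℝ, 0 < t ∧ p + t • v ∈ frontier Ω ∧ openSegment ℝ p (p + t • v) ⊆ Ω := by
  have hr := h.r_pos
  have hint : interior Ω = Ω := h.isOpen.interior_eq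
  have hcl : p ∈ closure Ω := by
    rcases hp with hp | hp
    · exact subset_closure hp
    · exact frontier_subset_closure hp.1
  set A : Set ℝ := {t : ℝ | 0 < t ∧ p + t • v ∈ Ω} with hA
  have hne : A.Nonempty := by
    rcases hp with hp | ⟨hp, hin⟩
    · obtain ⟨ε, hε, hb⟩ := Metric.isOpen_iff.1 h.isOpen p hp
      refine ⟨ε / 2, by positivity, hb ?_⟩
      rw [mem_ball, dist_eq_norm, add_sub_cancel_left, norm_smul, hv, mul_one, Real.norm_eq_abs,
        abs_of_pos (by positivity)]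
      linarith
    · refine ⟨-(r * ⟪ν p, v⟫), by nlinarith, h.inner p hp ?_⟩
      rw [mem_ball, dist_eq_norm]
      set s : ℝ := -(r * ⟪ν p, v⟫) with hs
      have hs0 : 0 < s := by rw [hs]; nlinarith
      have e : p + s • v - (p - r • ν p) = s • v + r • ν p := by module
      rw [e]
      have h1 : ‖s • v + r • ν p‖ ^ 2 < r ^ 2 := by
        rw [norm_add_sq_real, norm_smul, norm_smul, hv, h.unit p hp, real_inner_smul_left,
          real_inner_smul_right, real_inner_comm]
        simp only [Real.norm_eq_abs, mul_one, sq_abs]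
        have : s * (r * ⟪ν p, v⟫) = -s ^ 2 := by
          have : r * ⟪ν p, v⟫ = -s := by rw [hs]; ring
          rw [this]; ring
        nlinarith [sq_pos_of_pos hs0]
      exact lt_of_pow_lt_pow_left₀ 2 hr.le h1
  have hbdd : BddAbove A := by
    obtain ⟨R, hR⟩ := h.isBounded.subset_closedBall p
    refine ⟨R, fun t ht => ?_⟩
    have := hR ht.2
    rw [mem_closedBall, dist_eq_norm, add_sub_cancel_left, norm_smul, hv, mul_one,
      Real.norm_eq_abs, abs_of_pos ht.1] at this
    exact this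
  set t0 : ℝ := sSup A with ht0
  have hpos : 0 < t0 := by
    obtain ⟨t, ht⟩ := hne
    exact ht.1.trans_le (le_csSup hbdd ht)
  have hlt : ∀ s : ℝ, 0 < s → s < t0 → p + s • v ∈ Ω := by
    intro s hs hs'
    obtain ⟨t, ht, hst⟩ := exists_lt_of_lt_csSup hne hs'
    have hseg := hc.openSegment_closure_interior_subset_interior hcl (by rw [hint]; exact ht.2)
    rw [hint] at hseg
    apply hseg
    rw [openSegment_eq_image']
    refine ⟨s / t, ⟨div_pos hs ht.1, (div_lt_one ht.1).2 hst⟩, ?_⟩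
    simp only [add_sub_cancel_left, smul_smul]
    rw [div_mul_cancel₀ _ ht.1.ne']
  refine ⟨t0, hpos, ?_, ?_⟩
  · rw [h.isOpen.frontier_eq]
    refine ⟨?_, ?_⟩
    · -- limit of points with smaller parameter
      have hlim : Tendsto (fun s : ℝ => p + s • v) (𝓝[<] t0) (𝓝 (p + t0 • v)) := by
        apply tendsto_nhdsWithin_of_tendsto_nhds
        exact Continuous.tendsto (by fun_prop) t0
      refine mem_closure_of_tendsto hlim ?_
      have h1 : ∀ᶠ s : ℝ in 𝓝[<] t0, 0 < s :=
        mem_nhdsWithin_of_mem_nhds (Ioi_mem_nhds hpos)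
      filter_upwards [h1, self_mem_nhdsWithin] with s hs1 hs2
      exact hlt s hs1 hs2
    · intro hmem
      obtain ⟨ε, hε, hb⟩ := Metric.isOpen_iff.1 h.isOpen _ hmem
      have hA1 : t0 + ε / 2 ∈ A := by
        refine ⟨by positivity, hb ?_⟩
        rw [mem_ball, dist_eq_norm]
        have e : p + (t0 + ε / 2) • v - (p + t0 • v) = (ε / 2) • v := by module
        rw [e, norm_smul, hv, mul_one, Real.norm_eq_abs, abs_of_pos (by positivity)]
        linarith
      have := le_csSup hbdd hA1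
      linarith
  · intro w hw
    rw [openSegment_eq_image'] at hw
    obtain ⟨s, ⟨hs0, hs1⟩, rfl⟩ := hw
    simp only [add_sub_cancel_left, smul_smul]
    apply hlt
    · positivity
    · nlinarith

/-- In a convex region every direction gives a ray with arbitrarily many reflections. -/
theorem exists_forward {Ω : Set E} {ν : E → E} {r : ℝ} (h : Region Ω ν r) (hc : Convex ℝ Ω)
    (hCv : S_CONV E) {x u : E} (hx : x ∈ Ω) (hu : ‖u‖ = 1) (k : ℕ) :
    ∃ (P v : ℕ → E) (τ : ℕ → ℝ), v 0 = u ∧ LightPath Ω ν k x (P (k + 1)) P v τ ∧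
      Trans ν k P v := by
  have hex : ∀ p v : E, ‖v‖ = 1 → (p ∈ Ω ∨ (p ∈ frontier Ω ∧ ⟪ν p, v⟫ < 0)) →
      ∃ t : ℝ, 0 < t ∧ p + t • v ∈ frontier Ω ∧ openSegment ℝ p (p + t • v) ⊆ Ω :=
    fun p v hv hp => exists_exit_convex h hc hv hp
  choose! T hT0 hT1 hT2 using hex
  let st : ℕ → E × E := fun n => Nat.rec (x, u) (fun _ s =>
    (s.1 + T s.1 s.2 • s.2, refl (ν (s.1 + T s.1 s.2 • s.2)) s.2)) n
  have hs0 : st 0 = (x, u) := rfl
  have hs1 : ∀ i, st (i + 1) = ((st i).1 + T (st i).1 (st i).2 • (st i).2,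
      refl (ν ((st i).1 + T (st i).1 (st i).2 • (st i).2)) (st i).2) := fun i => rfl
  have hgood : ∀ i, ‖(st i).2‖ = 1 ∧
      ((st i).1 ∈ Ω ∨ ((st i).1 ∈ frontier Ω ∧ ⟪ν (st i).1, (st i).2⟫ < 0)) := by
    intro i
    induction i with
    | zero => exact ⟨hu, Or.inl hx⟩
    | succ i ih =>
      have hf := hT1 _ _ ih.1 ih.2
      have hpos := hCv Ω ν r h hc _ _ _ (hT0 _ _ ih.1 ih.2) hf (hT2 _ _ ih.1 ih.2)
      have hn := h.unit _ hf
      rw [hs1]
      refine ⟨?_, Or.inr ⟨hf, ?_⟩⟩
      · show ‖refl (ν _) _‖ = 1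
        rw [norm_refl hn, ih.1]
      · show ⟪ν _, refl (ν _) _⟫ < 0
        rw [inner_refl hn]
        linarith
  refine ⟨fun i => (st i).1, fun i => (st i).2, fun i => T (st i).1 (st i).2, rfl, ?_, ?_⟩
  · refine ⟨rfl, rfl, ?_, ?_, ?_, ?_, ?_, ?_⟩
    · intro i _
      exact hT1 _ _ (hgood i).1 (hgood i).2
    · intro i _
      exact hT0 _ _ (hgood i).1 (hgood i).2
    · intro i _
      exact (hgood i).1
    · intro i _
      rfl
    · intro i _
      exact hT2 _ _ (hgood i).1 (hgood i).2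
    · intro i _
      rfl
  · intro i _
    exact hCv Ω ν r h hc _ _ _ (hT0 _ _ (hgood i).1 (hgood i).2) (hT1 _ _ (hgood i).1 (hgood i).2)
      (hT2 _ _ (hgood i).1 (hgood i).2)

/-- Convex regions: after an even number of reflections a whole ball of directions misses `y`. -/
theorem convex_core [FiniteDimensional ℝ E] (hE : S_EXIT E) (hL : S_LEN E) (hC : S_CONST E)
    (hS : S_SURJ E) (hSt : S_STAR E) (hCv : S_CONV E) (h2 : 1 < Module.finrank ℝ E)
    {Ω : Set E} {ν : E → E} {r : ℝ} (h : Region Ω ν r) (hc : Convex ℝ Ω) {x y : E} (hx : x ∈ Ω)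
    (hy : y ∈ Ω) (hxy : x ≠ y) {k : ℕ} (hk : Even k) :
    ∃ (u0 : E) (δ : ℝ), ‖u0‖ = 1 ∧ 0 < δ ∧ ∀ u : E, ‖u‖ = 1 → ‖u - u0‖ < δ →
      ¬ ∃ (P v : ℕ → E) (τ : ℕ → ℝ), v 0 = u ∧ LightPath Ω ν k x y P v τ := by
  by_contra hcon
  push Not at hcon
  refine even_core hE hL hC hS hSt h2 h hx hy hxy hk fun u0 hu0 => ?_
  have hfw : ∀ u : E, ‖u‖ = 1 → ∃ (P v : ℕ → E) (τ : ℕ → ℝ), v 0 = u ∧
      LightPath Ω ν k x (P (k + 1)) P v τ ∧ Trans ν k P v :=
    fun u hu => exists_forward h hc hCv hx hu k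
  choose! P v τ hv hP hT using hfw
  have hfam := fam_LL hE h hx (y := fun u => P u (k + 1)) hv hP hT hu0 k le_rfl
  have hPlim := hfam.1.tendsto
  have hvlim := hfam.2.1.tendsto
  have hD : Tendsto (fun u => y - P u k - ‖y - P u k‖ • v u k) (𝓝[sphere (0 : E) 1] u0)
      (𝓝 (y - P u0 k - ‖y - P u0 k‖ • v u0 k)) :=
    (hPlim.const_sub y).sub ((hPlim.const_sub y).norm.smul hvlim)
  have hD0 : y - P u0 k - ‖y - P u0 k‖ • v u0 k = 0 := by
    by_contra hne
    have hev := hD.eventually_ne hne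
    rw [Filter.Eventually, Metric.mem_nhdsWithin_iff] at hev
    obtain ⟨δ, hδ, hsub⟩ := hev
    obtain ⟨u, hu, huδ, P', v', τ', hv', hP'⟩ := hcon u0 δ hu0 hδ
    have hmem := hsub ⟨by rw [mem_ball, dist_eq_norm]; exact huδ, by simpa using hu⟩
    apply hmem
    obtain ⟨q1, q2, _⟩ := (hP u hu).unique h hP' ((hv u hu).trans hv'.symm) k le_rfl
    have q3 := hP'.step k le_rfl
    rw [hP'.finish] at q3
    have hpos := hP'.pos k le_rfl
    have hn : ‖y - P' k‖ = τ' k := by
      rw [q3, add_sub_cancel_left, norm_smul, hP'.unit k le_rfl, mul_one, Real.norm_eq_abs,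
        abs_of_pos hpos]
    rw [q1, q2, hn]
    nth_rewrite 1 [q3]
    module
  have hne : P u0 k ≠ y := by
    intro he
    rcases Nat.eq_zero_or_pos k with h0 | h0
    · rw [h0, (hP u0 hu0).start] at he
      exact hxy he
    · obtain ⟨j, hj⟩ : ∃ j, k = j + 1 := ⟨k - 1, by omega⟩
      have := (hP u0 hu0).bdry j (by omega)
      rw [← hj, he] at this
      exact h.not_mem this hy
  have hpos : 0 < ‖y - P u0 k‖ := norm_pos_iff.2 (sub_ne_zero.2 hne.symm)
  have hcl : P u0 k ∈ closure Ω := by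
    rcases Nat.eq_zero_or_pos k with h0 | h0
    · rw [h0, (hP u0 hu0).start]
      exact subset_closure hx
    · obtain ⟨j, hj⟩ : ∃ j, k = j + 1 := ⟨k - 1, by omega⟩
      have := (hP u0 hu0).bdry j (by omega)
      rw [← hj] at this
      exact frontier_subset_closure this
  have hA := hP u0 hu0
  refine ⟨fun i => if i = k + 1 then y else P u0 i, v u0,
    fun i => if i = k then ‖y - P u0 k‖ else τ u0 i, hv u0 hu0, ?_, ?_⟩
  · refine ⟨?_, by simp, ?_, ?_, hA.unit, ?_, ?_, ?_⟩
    · rw [if_neg (by omega)]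
      exact hA.start
    · intro i hi
      rw [if_neg (by omega)]
      exact hA.bdry i hi
    · intro i hi
      by_cases hik : i = k
      · simp only [hik, if_true]; exact hpos
      · simp only [hik, if_false]; exact hA.pos i hi
    · intro i hi
      rw [if_neg (show ¬ i = k + 1 by omega)]
      by_cases hik : i = k
      · subst hik
        rw [if_pos rfl, if_pos rfl]
        have := hD0
        rw [sub_sub, sub_eq_zero] at this
        exact this
      · rw [if_neg (show ¬ i + 1 = k + 1 by omega), if_neg hik]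
        exact hA.step i hi
    · intro i hi
      rw [if_neg (show ¬ i = k + 1 by omega)]
      by_cases hik : i = k
      · subst hik
        rw [if_pos rfl]
        have hint : interior Ω = Ω := h.isOpen.interior_eq
        have hseg := hc.openSegment_closure_interior_subset_interior hcl (by rw [hint]; exact hy)
        rwa [hint] at hseg
      · rw [if_neg (show ¬ i + 1 = k + 1 by omega)]
        exact hA.inside i hi
    · intro i hi
      rw [if_neg (by omega)]
      exact hA.law i hi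
  · intro i hi
    simp only
    rw [if_neg (by omega)]
    exact hT u0 hu0 i hi

end Pool.Agent.Y294.FO
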