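import Mathlib
import Pool.Agent.Y294.FO.Stm

open Set Metric Filter Topology
open scoped RealInnerProductSpace

set_option linter.unusedSectionVars false

namespace Pool.Agent.Y294.FO

variable {E : Type*} [NormedAddCommGroup E] [InnerProductSpace ℝ E]

theorem refl_bisect {a b : E} (ha : ‖a‖ = 1) (hb : ‖b‖ = 1) (hab : a + b ≠ 0) :
    refl (‖a + b‖⁻¹ • (a + b)) a = -b := by
  have h0 : ‖a + b‖ ≠ 0 := norm_ne_zero_iff.2 hab
  unfold refl
  have h1 : ‖a + b‖ ^ 2 = 2 * ⟪a + b, a⟫ := by
    rw [norm_add_sq_real, inner_add_left, real_inner_self_eq_norm_sq, ha, hb, real_inner_comm b a]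
    ring
  rw [real_inner_smul_left, smul_smul]
  have h2 : 2 * (‖a + b‖⁻¹ * ⟪a + b, a⟫) * ‖a + b‖⁻¹ = 1 := by
    field_simp
    linarith
  rw [h2]
  module

section ell

variable (x y : E) (l : ℝ)

/-- Sum of the distances to the foci. -/
noncomputable def gg (z : E) : ℝ := ‖z - x‖ + ‖z - y‖

theorem gg_cont : Continuous (gg x y) := by unfold gg; fun_prop

theorem gg_comb {p q : E} {s : ℝ} (hs0 : 0 ≤ s) (hs1 : s ≤ 1) :
    gg x y (p + s • (q - p)) ≤ (1 - s) * gg x y p + s * gg x y q := by
  unfold gg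
  have key : ∀ w : E, ‖p + s • (q - p) - w‖ ≤ (1 - s) * ‖p - w‖ + s * ‖q - w‖ := by
    intro w
    have e : p + s • (q - p) - w = (1 - s) • (p - w) + s • (q - w) := by module
    rw [e]
    refine (norm_add_le _ _).trans ?_
    rw [norm_smul, norm_smul, Real.norm_eq_abs, Real.norm_eq_abs, abs_of_nonneg hs0,
      abs_of_nonneg (by linarith)]
  have h1 := key x
  have h2 := key y
  linarith

variable {x y l}

theorem exists_exit (hl : ‖x - y‖ < l) {z v : E} (hz : z = x ∨ z = y) (hv : ‖v‖ = 1) :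
    ∃ t : ℝ, 0 < t ∧ gg x y (z + t • v) = l := by
  have hl0 : 0 < l := (norm_nonneg _).trans_lt hl
  have hc : Continuous (fun t : ℝ => gg x y (z + t • v)) := by unfold gg; fun_prop
  have h0 : gg x y (z + (0 : ℝ) • v) = ‖x - y‖ := by
    rcases hz with rfl | rfl
    · simp [gg]
    · simp [gg, norm_sub_rev]
  have h1 : l ≤ gg x y (z + l • v) := by
    have hlv : ‖l • v‖ = l := by rw [norm_smul, hv, Real.norm_eq_abs, abs_of_pos hl0, mul_one]
    rcases hz with rfl | rfl
    · have e1 : z + l • v - z = l • v := by abel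
      unfold gg
      rw [e1, hlv]
      have := norm_nonneg (z + l • v - y)
      linarith
    · have e1 : z + l • v - z = l • v := by abel
      unfold gg
      rw [e1, hlv]
      have := norm_nonneg (z + l • v - x)
      linarith
  have hmem : l ∈ Icc (gg x y (z + (0 : ℝ) • v)) (gg x y (z + l • v)) :=
    ⟨by rw [h0]; exact hl.le, h1⟩
  obtain ⟨t, ht, hgt⟩ := intermediate_value_Icc hl0.le hc.continuousOn hmem
  have hgt' : gg x y (z + t • v) = l := hgt
  refine ⟨t, lt_of_le_of_ne ht.1 ?_, hgt'⟩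
  intro h
  rw [← h, h0] at hgt'
  exact hl.ne hgt'

theorem mem_front {q z : E} (hl : ‖x - y‖ < l) (hz : z = x ∨ z = y) (hq : gg x y q = l) :
    q ∈ frontier {z : E | ‖z - x‖ + ‖z - y‖ < l} := by
  have ho : IsOpen {z : E | ‖z - x‖ + ‖z - y‖ < l} :=
    isOpen_lt (gg_cont x y) continuous_const
  have hzl : gg x y z < l := by
    rcases hz with rfl | rfl
    · simpa [gg] using hl
    · simpa [gg, norm_sub_rev] using hl
  rw [ho.frontier_eq]
  refine ⟨?_, ?_⟩
  · -- limit of points of the segment to `z`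
    have hlim : Tendsto (fun s : ℝ => q + s • (z - q)) (𝓝[>] 0) (𝓝 (q + (0 : ℝ) • (z - q))) := by
      apply tendsto_nhdsWithin_of_tendsto_nhds
      exact Continuous.tendsto (by fun_prop) 0
    rw [zero_smul, add_zero] at hlim
    refine mem_closure_of_tendsto hlim ?_
    have h1 : ∀ᶠ s : ℝ in 𝓝[>] 0, s < 1 :=
      mem_nhdsWithin_of_mem_nhds (Iio_mem_nhds one_pos)
    filter_upwards [h1, self_mem_nhdsWithin] with s hs1 hs0
    have hs0' : 0 < s := hs0
    have := gg_comb x y (p := q) (q := z) hs0'.le hs1.le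
    show gg x y (q + s • (z - q)) < l
    rw [hq] at this
    nlinarith
  · intro h
    have h' : gg x y q < l := h
    exact absurd hq h'.ne

theorem seg_sub {p q z : E} (hp : gg x y p ≤ l) (hq : gg x y q ≤ l) (hz : gg x y z < l)
    {a b : ℝ} {v : E} (_ha : 0 ≤ a) (hb : 0 ≤ b) (hab : 0 < a + b) (hza : z = p + a • v)
    (hqb : q = p + (a + b) • v) : openSegment ℝ p q ⊆ {z : E | ‖z - x‖ + ‖z - y‖ < l} := by
  intro w hw
  rw [openSegment_eq_image'] at hw
  obtain ⟨s, ⟨hs0, hs1⟩, rfl⟩ := hw
  show gg x y (p + s • (q - p)) < l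
  have e0 : q - p = (a + b) • v := by rw [hqb]; abel
  rcases le_total (s * (a + b)) a with h | h
  · -- on the first part
    have ha' : 0 < a := lt_of_lt_of_le (mul_pos hs0 hab) h
    have hσ0 : 0 < s * (a + b) / a := by positivity
    have hσ1 : s * (a + b) / a ≤ 1 := by rw [div_le_one ha']; exact h
    have e : p + s • (q - p) = p + (s * (a + b) / a) • (z - p) := by
      rw [e0, hza, add_sub_cancel_left, smul_smul, smul_smul, div_mul_cancel₀ _ ha'.ne']
    rw [e]
    have := gg_comb x y (p := p) (q := z) hσ0.le hσ1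
    nlinarith
  · -- on the second part
    have hb' : 0 < b := by
      by_contra hb0
      have hb0' : b = 0 := le_antisymm (not_lt.1 hb0) hb
      rw [hb0', add_zero] at h
      rw [hb0', add_zero] at hab
      nlinarith
    set σ : ℝ := (s * (a + b) - a) / b with hσ
    have hσ0 : 0 ≤ σ := by
      apply div_nonneg _ hb
      linarith
    have hσ1 : σ < 1 := by
      rw [hσ, div_lt_one hb']
      nlinarith
    have e : p + s • (q - p) = z + σ • (q - z) := by
      have e1 : q - z = b • v := by rw [hqb, hza]; module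
      rw [e0, e1, smul_smul, smul_smul, hσ, div_mul_cancel₀ _ hb'.ne', hza]
      module
    rw [e]
    have := gg_comb x y (p := z) (q := q) hσ0 hσ1.le
    nlinarith

end ell

theorem odd_main : S_ODD E := by
  intro x y l hl k hk u hu
  have hex : ∀ z v : E, (z = x ∨ z = y) → ‖v‖ = 1 → ∃ t : ℝ, 0 < t ∧ gg x y (z + t • v) = l :=
    fun z v hz hv => exists_exit hl hz hv
  choose! T hT0 hT1 using hex
  -- the foci
  set z : ℕ → E := fun i => if Even i then x else y with hz
  have hz0 : ∀ i, z i = x ∨ z i = y := by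
    intro i
    by_cases h : Even i
    · left; simp [hz, h]
    · right; simp [hz, h]
  have hzl : ∀ i, gg x y (z i) < l := by
    intro i
    rcases hz0 i with h | h
    · rw [h]; simpa [gg] using hl
    · rw [h]; simpa [gg, norm_sub_rev] using hl
  -- the directions
  let vv : ℕ → E := fun n => Nat.rec u (fun i v =>
    ‖z (i + 1) - (z i + T (z i) v • v)‖⁻¹ • (z (i + 1) - (z i + T (z i) v • v))) n
  set Q : ℕ → E := fun i => z i + T (z i) (vv i) • vv i with hQ
  have hvs : ∀ i, vv (i + 1) = ‖z (i + 1) - Q i‖⁻¹ • (z (i + 1) - Q i) := fun i => rfl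
  have hv0 : vv 0 = u := rfl
  have hunit : ∀ i, ‖vv i‖ = 1 ∧ gg x y (Q i) = l := by
    intro i
    induction i with
    | zero => exact ⟨hu, hT1 _ _ (hz0 0) hu⟩
    | succ i ih =>
      have hne : z (i + 1) - Q i ≠ 0 := by
        intro h
        have h1 := hzl (i + 1)
        rw [sub_eq_zero.1 h, ih.2] at h1
        exact lt_irrefl _ h1
      have h2 : ‖vv (i + 1)‖ = 1 := by
        rw [hvs, norm_smul, norm_inv, norm_norm, inv_mul_cancel₀ (norm_ne_zero_iff.2 hne)]
      exact ⟨h2, hT1 _ _ (hz0 (i + 1)) h2⟩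
  have hne : ∀ i j, z j - Q i ≠ 0 := by
    intro i j h
    have h1 := hzl j
    rw [sub_eq_zero.1 h, (hunit i).2] at h1
    exact lt_irrefl _ h1
  have hzQ : ∀ i, z (i + 1) = Q i + ‖z (i + 1) - Q i‖ • vv (i + 1) := by
    intro i
    rw [hvs, smul_smul, mul_inv_cancel₀ (norm_ne_zero_iff.2 (hne i (i + 1))), one_smul]
    abel
  -- `vv i` is the unit vector from `z i` to `Q i`
  have hvQ : ∀ i, vv i = ‖Q i - z i‖⁻¹ • (Q i - z i) := by
    intro i
    have ht := hT0 _ _ (hz0 i) (hunit i).1
    have e : Q i - z i = T (z i) (vv i) • vv i := by simp [hQ]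
    rw [e, norm_smul, (hunit i).1, Real.norm_eq_abs, abs_of_pos ht, mul_one, smul_smul,
      inv_mul_cancel₀ ht.ne', one_smul]
  -- the law of reflection
  have hlaw : ∀ i, vv (i + 1) = refl (ellNormal E x y (Q i)) (vv i) := by
    intro i
    have hnx : Q i - x ≠ 0 := by
      intro h
      have : gg x y (Q i) = ‖x - y‖ := by rw [sub_eq_zero.1 h]; simp [gg]
      rw [(hunit i).2] at this
      exact hl.ne this.symm
    have hny : Q i - y ≠ 0 := by
      intro h
      have : gg x y (Q i) = ‖x - y‖ := by rw [sub_eq_zero.1 h]; simp [gg, norm_sub_rev]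
      rw [(hunit i).2] at this
      exact hl.ne this.symm
    have ha : ‖‖Q i - x‖⁻¹ • (Q i - x)‖ = 1 := by
      rw [norm_smul, norm_inv, norm_norm, inv_mul_cancel₀ (norm_ne_zero_iff.2 hnx)]
    have hb : ‖‖Q i - y‖⁻¹ • (Q i - y)‖ = 1 := by
      rw [norm_smul, norm_inv, norm_norm, inv_mul_cancel₀ (norm_ne_zero_iff.2 hny)]
    have hab : ‖Q i - x‖⁻¹ • (Q i - x) + ‖Q i - y‖⁻¹ • (Q i - y) ≠ 0 := by
      intro h
      -- then `x - y` has norm `l`
      have hx' : Q i - x = ‖Q i - x‖ • (‖Q i - x‖⁻¹ • (Q i - x)) := by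
        rw [smul_smul, mul_inv_cancel₀ (norm_ne_zero_iff.2 hnx), one_smul]
      have hy' : Q i - y = ‖Q i - y‖ • (‖Q i - y‖⁻¹ • (Q i - y)) := by
        rw [smul_smul, mul_inv_cancel₀ (norm_ne_zero_iff.2 hny), one_smul]
      have hb2 := eq_neg_of_add_eq_zero_right h
      have h3 : x - y = -((‖Q i - x‖ + ‖Q i - y‖) • (‖Q i - x‖⁻¹ • (Q i - x))) := by
        calc x - y = (Q i - y) - (Q i - x) := by abel
          _ = ‖Q i - y‖ • (‖Q i - y‖⁻¹ • (Q i - y)) -
              ‖Q i - x‖ • (‖Q i - x‖⁻¹ • (Q i - x)) := by rw [← hx', ← hy']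
          _ = _ := by rw [hb2]; module
      have h4 : ‖x - y‖ = l := by
        rw [h3, norm_neg, norm_smul, ha, mul_one, Real.norm_eq_abs,
          abs_of_nonneg (add_nonneg (norm_nonneg _) (norm_nonneg _))]
        exact (hunit i).2
      exact hl.ne h4
    by_cases hi : Even i
    · have hzi : z i = x := by simp [hz, hi]
      have hzi1 : z (i + 1) = y := by
        have : ¬ Even (i + 1) := by rw [Nat.not_even_iff_odd]; exact hi.add_one
        simp [hz, this]
      rw [hvs, hvQ i, hzi, hzi1, norm_sub_rev y]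
      unfold ellNormal
      rw [refl_bisect ha hb hab]
      module
    · have hzi : z i = y := by simp [hz, hi]
      have hzi1 : z (i + 1) = x := by
        have : Even (i + 1) := by rw [Nat.not_even_iff_odd] at hi; exact hi.add_one
        simp [hz, this]
      rw [hvs, hvQ i, hzi, hzi1, norm_sub_rev x]
      unfold ellNormal
      rw [add_comm (‖Q i - x‖⁻¹ • (Q i - x))] at hab ⊢
      rw [refl_bisect hb ha hab]
      module
  have hk1 : 1 ≤ k := hk.pos
  have hzk : z k = y := by
    have : ¬ Even k := Nat.not_even_iff_odd.2 hk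
    simp [hz, this]
  have hzz : z 0 = x := by simp [hz]
  have hQs : ∀ j, Q (j + 1) = Q j + (‖z (j + 1) - Q j‖ + T (z (j + 1)) (vv (j + 1))) •
      vv (j + 1) := by
    intro j
    have h3 := hzQ j
    calc Q (j + 1) = z (j + 1) + T (z (j + 1)) (vv (j + 1)) • vv (j + 1) := rfl
      _ = (Q j + ‖z (j + 1) - Q j‖ • vv (j + 1)) + T (z (j + 1)) (vv (j + 1)) • vv (j + 1) := by
          rw [← h3]
      _ = _ := by module
  -- the path
  refine ⟨fun i => if i = 0 then x else if i = k + 1 then y else Q (i - 1), vv,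
    fun i => if i = 0 then T (z 0) (vv 0) else if i = k then ‖z k - Q (k - 1)‖ else
      ‖z i - Q (i - 1)‖ + T (z i) (vv i), hv0, ?_⟩
  have hPs : ∀ i, i < k → (if i + 1 = 0 then x else if i + 1 = k + 1 then y else Q (i + 1 - 1)) =
      Q i := by
    intro i hi
    rw [if_neg (Nat.succ_ne_zero i), if_neg (by omega), Nat.add_sub_cancel]
  refine ⟨?_, ?_, ?_, ?_, ?_, ?_, ?_, ?_⟩
  · simp
  · simp
  · intro i hi
    simp only [hPs i hi]
    exact mem_front hl (hz0 0) (hunit i).2
  · intro i hi
    rcases Nat.eq_zero_or_pos i with h0 | h0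
    · simp only [h0, if_true]
      exact hT0 _ _ (hz0 0) (hunit 0).1
    · simp only [h0.ne', if_false]
      by_cases hik : i = k
      · simp only [hik, if_true]
        exact norm_pos_iff.2 (hne _ _)
      · simp only [hik, if_false]
        have h1 := norm_pos_iff.2 (hne (i - 1) i)
        have h2 := hT0 _ _ (hz0 i) (hunit i).1
        linarith
  · intro i _
    exact (hunit i).1
  · intro i hi
    rcases Nat.eq_zero_or_pos i with h0 | h0
    · subst h0
      simp only [hPs 0 (by omega), if_true]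
      simp only [hQ, hzz]
    · obtain ⟨j, rfl⟩ : ∃ j, i = j + 1 := ⟨i - 1, by omega⟩
      have h3 := hzQ j
      have e1 := hPs j (by omega)
      rw [e1, if_neg (Nat.succ_ne_zero (j + 1)), if_neg (Nat.succ_ne_zero j)]
      by_cases hik : j + 1 = k
      · have hkj : k - 1 = j := by omega
        rw [if_pos (show j + 1 + 1 = k + 1 by omega), if_pos hik, hkj]
        rw [hik, hzk] at h3
        rw [hik, hzk]
        exact h3
      · rw [if_neg (show ¬ j + 1 + 1 = k + 1 by omega), if_neg hik]
        simp only [Nat.add_sub_cancel]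
        exact hQs j
  · intro i hi
    rcases Nat.eq_zero_or_pos i with h0 | h0
    · subst h0
      simp only [hPs 0 (by omega), if_true]
      refine seg_sub (z := z 0) (v := vv 0) (a := 0) (b := T (z 0) (vv 0)) ?_ (hunit 0).2.le
        (hzl 0) le_rfl (hT0 _ _ (hz0 0) (hunit 0).1).le ?_ ?_ ?_
      · have := hzl 0
        rw [hzz] at this
        exact this.le
      · rw [zero_add]; exact hT0 _ _ (hz0 0) (hunit 0).1
      · rw [zero_smul, add_zero, hzz]
      · rw [zero_add]; simp only [hQ, hzz]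
    · obtain ⟨j, rfl⟩ : ∃ j, i = j + 1 := ⟨i - 1, by omega⟩
      have h3 := hzQ j
      have e1 := hPs j (by omega)
      have hpos := norm_pos_iff.2 (hne j (j + 1))
      rw [e1, if_neg (Nat.succ_ne_zero (j + 1))]
      by_cases hik : j + 1 = k
      · rw [if_pos (show j + 1 + 1 = k + 1 by omega)]
        rw [hik, hzk] at h3 hpos
        have hyl := hzl k
        rw [hzk] at hyl
        refine seg_sub (z := y) (v := vv k) (a := ‖y - Q j‖) (b := 0) (hunit j).2.le hyl.le hyl
          hpos.le le_rfl (by linarith) h3 ?_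
        rw [add_zero]
        exact h3
      · rw [if_neg (show ¬ j + 1 + 1 = k + 1 by omega)]
        simp only [Nat.add_sub_cancel]
        have hT2 := hT0 _ _ (hz0 (j + 1)) (hunit (j + 1)).1
        exact seg_sub (z := z (j + 1)) (v := vv (j + 1)) (a := ‖z (j + 1) - Q j‖)
          (b := T (z (j + 1)) (vv (j + 1))) (hunit j).2.le (hunit (j + 1)).2.le (hzl (j + 1))
          hpos.le hT2.le (by linarith) h3 (hQs j)
  · intro i hi
    simp only [hPs i hi]
    exact hlaw i

end Pool.Agent.Y294.FO
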