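import Mathlib
import Pool.Agent.Y294.FO.Defs

/-!
# Definitions for the plane case: analytic closed curves, and light paths which may touch the wall
-/

open Set Metric Filter Topology
open scoped RealInnerProductSpace

namespace Pool.Agent.Y294.FO

/-- `γ` is a simple closed curve with a regular real-analytic parametrization of period `T`. -/
structure AnalyticClosedCurve (γ : ℝ → ℂ) (T : ℝ) : Prop where
  period_pos : 0 < T
  analytic : ∀ t, AnalyticAt ℝ γ t
  periodic : Function.Periodic γ T
  regular : ∀ t, deriv γ t ≠ 0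
  simple : InjOn γ (Ico 0 T)

/-- `Ω` is a bounded open connected region whose boundary is the curve `γ`, and `ν` is a unit
normal of the curve at each of its points. -/
structure BoundedBy (γ : ℝ → ℂ) (Ω : Set ℂ) (ν : ℂ → ℂ) : Prop where
  isOpen : IsOpen Ω
  isConnected : IsConnected Ω
  isBounded : Bornology.IsBounded Ω
  frontier_eq : frontier Ω = range γ
  unit : ∀ t, ‖ν (γ t)‖ = 1
  normal : ∀ t, ⟪ν (γ t), deriv γ t⟫ = 0

variable {E : Type*} [NormedAddCommGroup E] [InnerProductSpace ℝ E]

/-- The same as `LightPath`, but the legs only have to stay in the closure of `Ω`: they may touch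
the boundary, and such contacts need not be counted as reflections. -/
structure WeakLightPath (Ω : Set E) (ν : E → E) (k : ℕ) (x y : E) (P v : ℕ → E) (τ : ℕ → ℝ) :
    Prop where
  start : P 0 = x
  finish : P (k + 1) = y
  bdry : ∀ i, i < k → P (i + 1) ∈ frontier Ω
  pos : ∀ i, i ≤ k → 0 < τ i
  unit : ∀ i, i ≤ k → ‖v i‖ = 1
  step : ∀ i, i ≤ k → P (i + 1) = P i + τ i • v i
  inside : ∀ i, i ≤ k → openSegment ℝ (P i) (P (i + 1)) ⊆ closure Ω
  law : ∀ i, i < k → v (i + 1) = refl (ν (P (i + 1))) (v i)

end Pool.Agent.Y294.FO
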