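import Mathlib
import Pool.Agent.Y294.FO.Defs2
import Pool.Agent.Results.MP_3080d1_gt.NoTwoReflectionFocus

open Set Metric Filter Topology
open scoped RealInnerProductSpace

namespace Pool.Agent.Y294.FO

open Pool.Agent.Results.MP_3080d1_gt

theorem reflectDir_eq {t n u : ℂ} (ht : t ≠ 0) (hn : ‖n‖ = 1) (h : ⟪n, t⟫ = 0) :
    NoTwoReflectionFocus.reflectDir t u = refl n u := by
  have hn2 : n.re * n.re + n.im * n.im = 1 := by
    have := Complex.sq_norm n
    rw [hn, Complex.normSq_apply] at this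
    linarith
  have ht2 : ‖t‖ ^ 2 = t.re * t.re + t.im * t.im := by
    rw [Complex.sq_norm, Complex.normSq_apply]
  have ht0 : t.re * t.re + t.im * t.im ≠ 0 := by
    rw [← ht2]
    exact pow_ne_zero 2 (norm_ne_zero_iff.2 ht)
  have h' : n.re * t.re + n.im * t.im = 0 := by
    rw [Complex.inner] at h
    simp at h
    linarith
  have hi : ∀ a b : ℂ, (inner ℝ a b : ℝ) = a.re * b.re + a.im * b.im := by
    intro a b
    rw [Complex.inner]
    simp
    ring
  -- `n` is a multiple of the vector orthogonal to `t`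
  have key1 : n.re * n.re * (t.re * t.re + t.im * t.im) = t.im * t.im := by
    have e : (n.re * t.re) * (n.re * t.re) = (n.im * t.im) * (n.im * t.im) := by
      have : n.re * t.re = -(n.im * t.im) := by linarith
      rw [this]; ring
    linear_combination e + t.im * t.im * hn2
  have key2 : n.im * n.im * (t.re * t.re + t.im * t.im) = t.re * t.re := by
    linear_combination (t.re * t.re + t.im * t.im) * hn2 - key1
  have key3 : n.re * n.im * (t.re * t.re + t.im * t.im) = -(t.re * t.im) := by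
    have e1 : n.re * n.im * (t.re * t.re) = -(n.im * n.im * (t.re * t.im)) := by
      have : n.re * t.re = -(n.im * t.im) := by linarith
      linear_combination n.im * t.re * this
    have e2 : n.re * n.im * (t.im * t.im) = -(n.re * n.re * (t.re * t.im)) := by
      have : n.im * t.im = -(n.re * t.re) := by linarith
      linear_combination n.re * t.im * this
    linear_combination e1 + e2 - t.re * t.im * hn2
  unfold NoTwoReflectionFocus.reflectDir refl
  rw [hi, hi, ht2]
  apply Complex.ext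
  · simp only [Complex.sub_re, Complex.real_smul, Complex.mul_re, Complex.ofReal_re,
      Complex.ofReal_im, zero_mul, sub_zero]
    rw [div_mul_eq_mul_div, div_sub' ht0, div_eq_iff ht0]
    linear_combination (2 * u.re) * key1 + (2 * u.im) * key3
  · simp only [Complex.sub_im, Complex.real_smul, Complex.mul_im, Complex.ofReal_re,
      Complex.ofReal_im, zero_mul, add_zero]
    rw [div_mul_eq_mul_div, div_sub' ht0, div_eq_iff ht0]
    linear_combination (2 * u.re) * key3 + (2 * u.im) * key2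

theorem segment_sub_closure {p q : ℂ} {Ω : Set ℂ} (h : openSegment ℝ p q ⊆ closure Ω) :
    segment ℝ p q ⊆ closure Ω := by
  rw [← closure_openSegment]
  exact closure_minimal h isClosed_closure

theorem plane_core {γ : ℝ → ℂ} {T : ℝ} (hγ : AnalyticClosedCurve γ T) {Ω : Set ℂ} {ν : ℂ → ℂ}
    (hΩ : BoundedBy γ Ω ν) {x y : ℂ} (hx : x ∈ Ω) (hy : y ∈ Ω) (hxy : x ≠ y) :
    {u : ℂ | ‖u‖ = 1 ∧ ¬ ∃ (P v : ℕ → ℂ) (τ : ℕ → ℝ), v 0 = u ∧
      WeakLightPath Ω ν 2 x y P v τ}.Infinite := by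
  have h := (NoTwoReflectionFocus.result γ T
    ⟨hγ.period_pos, hγ.analytic, hγ.periodic, hγ.regular, hγ.simple⟩ Ω
    ⟨hΩ.isOpen, hΩ.isConnected, hΩ.isBounded, hΩ.frontier_eq⟩ x y hx hy hxy).2
  refine h.mono ?_
  rintro u ⟨hu, hno⟩
  refine ⟨hu, ?_⟩
  rintro ⟨P, v, τ, hv, hP⟩
  apply hno
  have hb1 : P 1 ∈ frontier Ω := hP.bdry 0 (by norm_num)
  have hb2 : P 2 ∈ frontier Ω := hP.bdry 1 (by norm_num)
  rw [hΩ.frontier_eq] at hb1 hb2
  obtain ⟨t₁, ht₁⟩ := hb1
  obtain ⟨t₂, ht₂⟩ := hb2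
  have hs0 : P 1 = P 0 + τ 0 • v 0 := hP.step 0 (by norm_num)
  have hs1 : P 2 = P 1 + τ 1 • v 1 := hP.step 1 (by norm_num)
  have hs2 : P 3 = P 2 + τ 2 • v 2 := hP.step 2 (by norm_num)
  have hl0 : v 1 = refl (ν (P 1)) (v 0) := hP.law 0 (by norm_num)
  have hl1 : v 2 = refl (ν (P 2)) (v 1) := hP.law 1 (by norm_num)
  have hi0 : openSegment ℝ (P 0) (P 1) ⊆ closure Ω := hP.inside 0 (by norm_num)
  have hi1 : openSegment ℝ (P 1) (P 2) ⊆ closure Ω := hP.inside 1 (by norm_num)
  have hi2 : openSegment ℝ (P 2) (P 3) ⊆ closure Ω := hP.inside 2 (by norm_num)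
  have hf : P 3 = y := hP.finish
  have r1 : v 1 = NoTwoReflectionFocus.reflectDir (deriv γ t₁) u := by
    rw [reflectDir_eq (hγ.regular t₁) (hΩ.unit t₁) (hΩ.normal t₁), hl0, ht₁, hv]
  have r2 : v 2 = NoTwoReflectionFocus.reflectDir (deriv γ t₂)
      (NoTwoReflectionFocus.reflectDir (deriv γ t₁) u) := by
    rw [reflectDir_eq (hγ.regular t₂) (hΩ.unit t₂) (hΩ.normal t₂), hl1, ht₂, r1]
  refine ⟨t₁, t₂, τ 0, τ 1, τ 2, hP.pos 0 (by norm_num), hP.pos 1 (by norm_num),
    hP.pos 2 (by norm_num), ?_, ?_, ?_, ?_, ?_, ?_⟩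
  · rw [ht₁, hs0, hP.start, hv]
  · rw [ht₂, hs1, ← r1, ht₁]
  · rw [← r2, ht₂, ← hs2, hf]
  · rw [ht₁, ← hP.start]
    exact segment_sub_closure hi0
  · rw [ht₁, ht₂]
    exact segment_sub_closure hi1
  · rw [ht₂, ← hf]
    exact segment_sub_closure hi2

end Pool.Agent.Y294.FO
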