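import Mathlib
import Pool.Agent.Y294.FO.Defs

open Set Metric Filter Topology
open scoped RealInnerProductSpace Gradient

namespace Pool.Agent.Y294.FO

/-- C2: a bounded connected region `{f < 0}`, `f` of class `C²` with nonvanishing gradient on
`{f = 0}`, satisfies the two-sided ball condition with the normalised gradient as normal. -/
def S_C2 (E : Type*) [NormedAddCommGroup E] [InnerProductSpace ℝ E] [CompleteSpace E] : Prop :=
  ∀ f : E → ℝ, ContDiff ℝ 2 f → Bornology.IsBounded {z : E | f z < 0} →
    IsConnected {z : E | f z < 0} → (∀ z : E, f z = 0 → ∇ f z ≠ 0) →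
    ∃ r : ℝ, Region {z : E | f z < 0} (fun z => ‖∇ f z‖⁻¹ • ∇ f z) r

end Pool.Agent.Y294.FO
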